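import Pool.Agent.Q161.HZ.Stmts

set_option autoImplicit false

namespace Pool.Agent.Q161.HZ

open Finset

lemma good_prod (hC : TaskComp) (n : ℕ) {ι : Type} (s : Finset ι) (f : ι → ℕ → ℂ) (r : ι → ℝ)
    (c : ℕ → ℂ) (ρ : ℝ) (hρ : 0 < ρ) (hc : Good c n ρ) (hr : ∀ k, 0 < r k)
    (hf : ∀ k, Good (f k) n (r k)) :
    Good (fun j => c j * ∏ k ∈ s, f k j) n (ρ * ∏ k ∈ s, r k) := by
  classical
  induction s using Finset.induction_on with
  | empty => simpa using hc
  | insert k s hk ih =>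
    have h := hC _ _ n _ _ (mul_pos hρ (Finset.prod_pos fun i _ => hr i)) (hr k) ih (hf k)
    have e1 : (fun j => c j * ∏ i ∈ insert k s, f i j) =
        fun j => (c j * ∏ i ∈ s, f i j) * f k j := by
      funext j
      rw [Finset.prod_insert hk]; ring
    rw [e1, Finset.prod_insert hk]
    have e2 : ρ * (r k * ∏ x ∈ s, r x) = ρ * (∏ x ∈ s, r x) * r k := by ring
    rw [e2]
    exact h

lemma poch_neg (n j : ℕ) : poch (-n) j = (-1) ^ j * (n.descFactorial j : ℂ) := by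
  induction j with
  | zero => simp [poch]
  | succ j ih =>
    have h : poch (-n) (j + 1) = poch (-n) j * (-n + j) := by
      unfold poch; rw [Finset.prod_range_succ]
    rw [h, ih, Nat.descFactorial_succ]
    rcases le_or_gt j n with hj | hj
    · push_cast [Nat.cast_sub hj]; ring
    · have : n.descFactorial j = 0 := Nat.descFactorial_eq_zero_iff_lt.2 hj
      rw [this]; simp

lemma poch_div (n j : ℕ) : poch (-n) j / (j.factorial : ℂ) = (-1) ^ j * (n.choose j : ℂ) := by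
  rw [poch_neg, Nat.descFactorial_eq_factorial_mul_choose]
  have : (j.factorial : ℂ) ≠ 0 := by exact_mod_cast j.factorial_ne_zero
  push_cast
  field_simp

/-- `w^n ∑ C(n,j) m_j (-1/w)^j (-1)^j`, reversal -/
lemma reverse_sum (m : ℕ → ℂ) (n : ℕ) (z : ℂ) (hz : z ≠ 0) :
    ∑ i ∈ range (n + 1), (n.choose i : ℂ) * m (n - i) * (-z⁻¹) ^ i =
      (-z⁻¹) ^ n * ∑ j ∈ range (n + 1), (n.choose j : ℂ) * m j * (-z) ^ j := by
  rw [← Finset.sum_range_reflect, Finset.mul_sum]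
  refine Finset.sum_congr rfl fun j hj => ?_
  have hj' : j ≤ n := Nat.lt_succ_iff.1 (Finset.mem_range.1 hj)
  have e1 : n + 1 - 1 - j = n - j := by omega
  rw [e1, Nat.choose_symm hj', Nat.sub_sub_self hj']
  have e2 : (-z⁻¹) ^ n = (-z⁻¹) ^ (n - j) * (-z⁻¹) ^ j := by
    rw [← pow_add]; congr 1; omega
  have e3 : (-z⁻¹) ^ j * (-z) ^ j = 1 := by
    rw [← mul_pow]
    have : -z⁻¹ * -z = 1 := by field_simp
    rw [this, one_pow]
  rw [e2]
  linear_combination (-(n.choose j : ℂ) * m j * (-z⁻¹) ^ (n - j)) * e3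

theorem main (hC : TaskComp) (hI : TaskInv) (hP : TaskPoch) (hS : TaskShift)
    (p q : ℕ) (lam : ℂ) (a : Fin p → ℂ) (b : Fin q → ℂ)
    (ha : ∀ k, ∀ m : ℕ, a k ≠ -m) (hb : ∀ k, ∀ m : ℕ, b k ≠ -m) :
    ∃ M : ℝ, ∀ n : ℕ, 1 ≤ n → poch (n + lam) n ≠ 0 → ∀ z : ℂ,
      ∑ j ∈ range (n + 1), poch (-n) j * poch (n + lam) j * (∏ k, poch (a k) j) /
        (∏ k, poch (b k) j) * (z ^ j / (j.factorial : ℂ)) = 0 →
      ‖z‖ ≤ M * (n : ℝ) ^ ((q : ℤ) - p - 1) := by
  obtain ⟨c0, hc0, h0⟩ := hS lam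
  choose ca hca hga using fun k => hP (a k) (ha k)
  choose cb hcb hgb using fun k => hI (b k) (hb k)
  set C : ℝ := c0 * (∏ k, ca k) * ∏ k, cb k with hCdef
  have hCpos : 0 < C := mul_pos (mul_pos hc0 (Finset.prod_pos fun k _ => hca k))
    (Finset.prod_pos fun k _ => hcb k)
  refine ⟨C⁻¹, fun n hn hne z hz => ?_⟩
  have hnpos : (0 : ℝ) < n := by exact_mod_cast hn
  have g0 := h0 n hn hne
  have g1 := good_prod hC n univ (fun k => poch (a k)) (fun k => ca k * n) _ _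
    (mul_pos hc0 hnpos) g0 (fun k => mul_pos (hca k) hnpos) (fun k => hga k n hn)
  have g2 := good_prod hC n univ (fun k j => (poch (b k) j)⁻¹) (fun k => cb k / n) _ _
    (mul_pos (mul_pos hc0 hnpos) (Finset.prod_pos fun k _ => mul_pos (hca k) hnpos)) g1
    (fun k => div_pos (hcb k) hnpos) (fun k => hgb k n hn)
  set m : ℕ → ℂ := fun j => poch (n + lam) j * (∏ k, poch (a k) j) * ∏ k, (poch (b k) j)⁻¹
    with hm
  have hz0 : z ≠ 0 := by
    rintro rfl
    rw [Finset.sum_range_succ'] at hz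
    simp [poch] at hz
  have hsum : ∑ j ∈ range (n + 1), (n.choose j : ℂ) * m j * (-z) ^ j = 0 := by
    rw [← hz]
    refine Finset.sum_congr rfl fun j _ => ?_
    have h1 := poch_div n j
    have h2 : poch (-n) j * poch (n + lam) j * (∏ k, poch (a k) j) / (∏ k, poch (b k) j) *
        (z ^ j / (j.factorial : ℂ)) = (poch (-n) j / (j.factorial : ℂ)) *
        (poch (n + lam) j * (∏ k, poch (a k) j) * (∏ k, poch (b k) j)⁻¹) * z ^ j := by
      simp only [div_eq_mul_inv]; ring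
    have h3 : m j = poch (n + lam) j * (∏ k, poch (a k) j) * (∏ k, poch (b k) j)⁻¹ := by
      rw [hm]; simp only [Finset.prod_inv_distrib]
    rw [h2, h1, h3, neg_pow z j]
    ring
  have hw : ∑ i ∈ range (n + 1), (n.choose i : ℂ) * m (n - i) * (-z⁻¹) ^ i = 0 := by
    rw [reverse_sum m n z hz0, hsum, mul_zero]
  have hge : (c0 * n * ∏ k : Fin p, ca k * n) * ∏ k : Fin q, cb k / n ≤ ‖-z⁻¹‖ := by
    by_contra hlt
    exact g2 _ (not_le.1 hlt) hw
  have hR : (c0 * n * ∏ k : Fin p, ca k * n) * ∏ k : Fin q, cb k / n =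
      C * (n : ℝ) ^ ((1 : ℤ) + p - q) := by
    rw [Finset.prod_mul_distrib, Finset.prod_const, Finset.prod_div_distrib, Finset.prod_const,
      Finset.card_univ, Finset.card_univ, Fintype.card_fin, Fintype.card_fin, hCdef,
      zpow_sub₀ hnpos.ne', zpow_add₀ hnpos.ne', zpow_one, zpow_natCast, zpow_natCast]
    field_simp
  rw [hR, norm_neg, norm_inv] at hge
  have hzn : 0 < ‖z‖ := norm_pos_iff.2 hz0
  have hpow : 0 < (n : ℝ) ^ ((1 : ℤ) + p - q) := zpow_pos hnpos _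
  have h3 : ‖z‖ ≤ (C * (n : ℝ) ^ ((1 : ℤ) + p - q))⁻¹ := by
    rw [le_inv_comm₀ hzn (mul_pos hCpos hpow)]
    exact hge
  rw [mul_inv, ← zpow_neg] at h3
  have e : -((1 : ℤ) + p - q) = (q : ℤ) - p - 1 := by ring
  rwa [e] at h3

end Pool.Agent.Q161.HZ
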