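import Mathlib

set_option autoImplicit false

/-!
MP_d36490_an: zeros of the polynomials `Σ_j C(n,j) (-1)^j (n+λ)_j ∏(a_k)_j / ∏(b_k)_j z^j` are `≤ M n^(q-p-1)`.
Proof: composition theorem (Grace, Szego) for discs, applied to the multipliers `(n+λ)_j`, `(a)_j`, `1/(b)_j`.
Prove `theorem taskX (hA : TaskA) ... : TaskX` in `Pool/Agent/Q161/HZ/TaskX.lean`.
-/

namespace Pool.Agent.Q161.HZ

open Finset

/-- the reversed polynomial with the multipliers `c` has no zeros in the open disc of radius `ρ` -/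
def Good (c : ℕ → ℂ) (n : ℕ) (ρ : ℝ) : Prop :=
  ∀ w : ℂ, ‖w‖ < ρ → ∑ i ∈ range (n + 1), (n.choose i : ℂ) * c (n - i) * w ^ i ≠ 0

/-- the Pochhammer symbol `(a)_j` -/
noncomputable def poch (a : ℂ) (j : ℕ) : ℂ := ∏ i ∈ range j, (a + i)

/-- composition theorem. Library: `Pool.Agent.H32R3.PV.act_ne_zero` (file H32R3/PV/Lag.lean, Walsh coincidence):
for `w ≠ 0`, `l i = (-1)^i c (n-i) w^i`... so that `Phi n l z = Σ C(n,i) c(n-i) (z w)^i`, `R = r / ‖w‖`, and the list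
`as` of the `a_ν` with `Σ C(n,i) d(n-i) x^i = d n * ∏ (1 - a_ν x)` (`n` of them, zeros allowed), `‖a_ν‖ ≤ 1/s < R` -/
def TaskComp : Prop := ∀ (c d : ℕ → ℂ) (n : ℕ) (r s : ℝ), 0 < r → 0 < s → Good c n r → Good d n s →
  Good (fun j => c j * d j) n (r * s)

/-- `Σ C(n,i) (α + n - i) w^i = (1+w)^(n-1) (α + n + α w)` -/
def TaskLin : Prop := ∀ (α : ℂ) (n : ℕ) (ρ : ℝ), ρ ≤ 1 → 1 ≤ n → ρ * ‖α‖ ≤ ‖α + n‖ → α + n ≠ 0 →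
  Good (fun j => α + j) n ρ

/-- `g_n(z) = Σ_j C(n,j) z^j / (b)_j` satisfies `(b+n) g_{n+1} = (2n + b + z) g_n - n g_{n-1}`; hence `‖g_k‖` is
increasing in `k ≤ n` for `‖z‖ ≥ 4 n + 2 ‖b‖`; `z = 1/w` -/
def TaskInv : Prop := ∀ b : ℂ, (∀ m : ℕ, b ≠ -m) → ∃ c : ℝ, 0 < c ∧ ∀ n : ℕ, 1 ≤ n →
  Good (fun j => (poch b j)⁻¹) n (c / n)

/-- `Σ C(n,i) (n-i)! w^i = n! Σ_{i ≤ n} w^i/i!`: for `‖w‖ ≤ n/20` the tail `Σ_{i > n} ‖w‖^i/i! < exp (-‖w‖) ≤ ‖exp w‖`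
(`n^i/i! ≤ 3^i` for `i ≥ n`) -/
def TaskFact : Prop := ∃ c : ℝ, 0 < c ∧ ∀ n : ℕ, 1 ≤ n → Good (fun j => (j.factorial : ℂ)) n (c * n)

def TaskDist : Prop := ∀ a : ℂ, (∀ m : ℕ, a ≠ -m) → ∃ c : ℝ, 0 < c ∧ ∀ m : ℕ, c * (m + 1) ≤ ‖a + m‖

/-- from TaskDist (for `a` and `1 - a`): `(1-a-n)_k = ∏_{i<k} (1+i-n-a)`; the factor is `≥ c (n - i)` for `i < n`
and `≥ c (i + 1 - n)` for `i ≥ n`; `n^k ≤ 8^k n!/(n-k)!` for `k ≤ n` (for `k ≤ n/2` `Nat.pow_sub_le_descFactorial`, for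
`k > n/2`: `n! ≥ (n/e)^n`, `(n-k)! ≤ n^(n-k)`), and `n^k ≤ k^k ≤ 3^k k! ≤ 6^k n! (k-n)!` for `k ≥ n` -/
def TaskLow : Prop := ∀ a : ℂ, (∀ m : ℤ, a ≠ m) → ∃ c : ℝ, 0 < c ∧ ∀ n k : ℕ, 1 ≤ n →
  (c * n) ^ k ≤ ‖poch (1 - a - n) k‖

/-- Kummer's transformation. In `ℂ⟦X⟧` let `E = Σ (1-a)_k/(1-a-n)_k (-X)^k/k!`; the coefficients of `Y = exp X * E`
satisfy `(k+1)(k+1-a-n) Y_{k+1} = (k-n) Y_k` (from `X Y'' + (1-a-n-X) Y' + n Y = 0`), `Y_0 = 1`; Cauchy product -/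
def TaskKummer : Prop := ∀ a : ℂ, (∀ m : ℤ, a ≠ m) → ∀ (n : ℕ) (w : ℂ),
  Summable (fun k : ℕ => ‖poch (1 - a) k / poch (1 - a - n) k * ((-w) ^ k / k.factorial)‖) →
  ∑ i ∈ range (n + 1), (n.choose i : ℂ) * poch a (n - i) * w ^ i =
    poch a n * (Complex.exp w * ∑' k : ℕ, poch (1 - a) k / poch (1 - a - n) k * ((-w) ^ k / k.factorial))

/-- from TaskLow, TaskKummer: `‖(1-a)_k‖ ≤ (1+‖a‖)^k k!`, so for `‖w‖ ≤ c' n` the series is within `1/2` of `1` -/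
def TaskNonInt : Prop := ∀ a : ℂ, (∀ m : ℤ, a ≠ m) → ∃ c : ℝ, 0 < c ∧ ∀ n : ℕ, 1 ≤ n → Good (poch a) n (c * n)

/-- from TaskComp, TaskLin, TaskDist, TaskFact, TaskNonInt: integers `a ≥ 1` by induction from `(1)_j = j!` and
`(a)_j (a + j) = a (a+1)_j` -/
def TaskPoch : Prop := ∀ a : ℂ, (∀ m : ℕ, a ≠ -m) → ∃ c : ℝ, 0 < c ∧ ∀ n : ℕ, 1 ≤ n → Good (poch a) n (c * n)

/-- continuity at `w = 0` -/
def TaskSmall : Prop := ∀ (c : ℕ → ℂ) (n : ℕ), c n ≠ 0 → ∃ ρ : ℝ, 0 < ρ ∧ Good c n ρ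

/-- from TaskComp, TaskLin, TaskPoch, TaskSmall: `a = λ + K` with `Re a > 0`, `n ≥ K`:
`(n+λ)_j = const * (a)_j ∏_{i < n-K} (a+i+j)`, each factor is Good with `ρ = 1`; `n < K`: TaskSmall -/
def TaskShift : Prop := ∀ lam : ℂ, ∃ c : ℝ, 0 < c ∧ ∀ n : ℕ, 1 ≤ n → poch (n + lam) n ≠ 0 →
  Good (poch (n + lam)) n (c * n)

end Pool.Agent.Q161.HZ
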