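import Pool.Agent.Q161.HZ.Stmts
import Pool.Agent.H32R3.PV.Lag

set_option autoImplicit false

namespace Pool.Agent.Q161.HZ

open Finset Pool.Agent.H32R3.PV

theorem act_eq : ∀ (as : List ℂ) (l : ℕ → ℂ), act as l 0 =
    ∑ i ∈ range (as.length + 1),
      ((as.map (fun a => (Polynomial.X - Polynomial.C a : Polynomial ℂ))).prod).coeff
        (as.length - i) * l i
  | [], l => by simp [act]
  | a :: as, l => by
    have hdeg : ((as.map (fun a => (Polynomial.X - Polynomial.C a : Polynomial ℂ))).prod).natDegree
        ≤ as.length := by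
      refine (Polynomial.natDegree_list_prod_le _).trans ?_
      rw [List.map_map]
      have : (as.map (Polynomial.natDegree ∘ fun a => (Polynomial.X - Polynomial.C a : Polynomial ℂ)))
          = as.map (fun _ => 1) := by
        refine List.map_congr_left fun b _ => ?_
        simp
      rw [this]
      simp
    set P := (as.map (fun a => (Polynomial.X - Polynomial.C a : Polynomial ℂ))).prod with hP
    have ih := act_eq as (fun i => l i - a * l (i + 1))
    have e1 : act (a :: as) l 0 = act as (fun i => l i - a * l (i + 1)) 0 := rfl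
    rw [e1, ih, ← hP]
    have e2 : ((a :: as).map (fun a => (Polynomial.X - Polynomial.C a : Polynomial ℂ))).prod
        = (Polynomial.X - Polynomial.C a) * P := by
      simp [hP]
    rw [e2, List.length_cons]
    have e3 : ∀ j, ((Polynomial.X - Polynomial.C a) * P).coeff (j + 1) =
        P.coeff j - a * P.coeff (j + 1) := by
      intro j
      rw [sub_mul, Polynomial.coeff_sub, Polynomial.coeff_X_mul, Polynomial.coeff_C_mul]
    have e4 : ((Polynomial.X - Polynomial.C a) * P).coeff 0 = - a * P.coeff 0 := by
      rw [sub_mul, Polynomial.coeff_sub, Polynomial.coeff_C_mul]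
      simp
    have e5 : P.coeff (as.length + 1) = 0 := Polynomial.coeff_eq_zero_of_natDegree_lt (by omega)
    -- left side
    have L : ∑ i ∈ range (as.length + 1), P.coeff (as.length - i) * (l i - a * l (i + 1)) =
        ∑ i ∈ range (as.length + 1), P.coeff (as.length - i) * l i -
        ∑ i ∈ range (as.length + 1), a * P.coeff (as.length - i) * l (i + 1) := by
      rw [← Finset.sum_sub_distrib]
      exact Finset.sum_congr rfl fun i _ => by ring
    have R1 : ∑ i ∈ range (as.length + 1),
        ((Polynomial.X - Polynomial.C a) * P).coeff (as.length + 1 - i) * l i =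
        ∑ i ∈ range (as.length + 1), P.coeff (as.length - i) * l i -
        ∑ i ∈ range (as.length + 1), a * P.coeff (as.length + 1 - i) * l i := by
      rw [← Finset.sum_sub_distrib]
      refine Finset.sum_congr rfl fun i hi => ?_
      rw [Finset.mem_range] at hi
      have h1 : as.length + 1 - i = (as.length - i) + 1 := by omega
      rw [h1, e3]
      ring
    rw [L, Finset.sum_range_succ _ (as.length + 1), R1]
    have R2 : ∑ i ∈ range (as.length + 1), a * P.coeff (as.length - i) * l (i + 1) =
        ∑ i ∈ range (as.length + 1), a * P.coeff (as.length + 1 - i) * l i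
          + a * P.coeff 0 * l (as.length + 1) := by
      have h1 := Finset.sum_range_succ' (fun i => a * P.coeff (as.length + 1 - i) * l i)
        (as.length + 1)
      have h2 := Finset.sum_range_succ (fun i => a * P.coeff (as.length + 1 - i) * l i)
        (as.length + 1)
      simp only [Nat.add_sub_add_right, Nat.sub_zero, e5, mul_zero, zero_mul, add_zero] at h1
      rw [← h1, h2]
      simp
    rw [R2, Nat.sub_self, e4]
    ring

theorem taskComp : TaskComp := by
  intro c d n r s hr hs hc hd w hw
  have hcn : c n ≠ 0 := by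
    have := hc 0 (by simpa using hr)
    rw [Finset.sum_eq_single 0] at this
    · simpa using this
    · intro i _ hi
      rw [zero_pow hi, mul_zero]
    · intro h
      exact absurd (Finset.mem_range.2 (Nat.succ_pos n)) h
  have hdn : d n ≠ 0 := by
    have := hd 0 (by simpa using hs)
    rw [Finset.sum_eq_single 0] at this
    · simpa using this
    · intro i _ hi
      rw [zero_pow hi, mul_zero]
    · intro h
      exact absurd (Finset.mem_range.2 (Nat.succ_pos n)) h
  by_cases hw0 : w = 0
  · subst hw0
    rw [Finset.sum_eq_single 0]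
    · simp [hcn, hdn]
    · intro i _ hi
      rw [zero_pow hi, mul_zero]
    · intro h
      exact absurd (Finset.mem_range.2 (Nat.succ_pos n)) h
  have hwpos : 0 < ‖w‖ := norm_pos_iff.2 hw0
  set E : Polynomial ℂ := ∑ j ∈ range (n + 1), Polynomial.C ((n.choose j : ℂ) * d j) *
    Polynomial.X ^ j with hE
  have hcoef : ∀ j, j ≤ n → E.coeff j = (n.choose j : ℂ) * d j := by
    intro j hj
    rw [hE, Polynomial.finsetSum_coeff]
    simp only [Polynomial.coeff_C_mul, Polynomial.coeff_X_pow]
    rw [Finset.sum_eq_single j]
    · simp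
    · intro i _ hi
      rw [if_neg (Ne.symm hi), mul_zero]
    · intro h
      exact absurd (Finset.mem_range.2 (by omega)) h
  have hdegle : E.natDegree ≤ n := by
    rw [hE]
    refine Polynomial.natDegree_sum_le_of_forall_le _ _ fun j hj => ?_
    rw [Finset.mem_range] at hj
    exact (Polynomial.natDegree_C_mul_X_pow_le _ _).trans (by omega)
  have hcn' : E.coeff n = d n := by rw [hcoef n le_rfl]; simp
  have hdeg : E.natDegree = n :=
    le_antisymm hdegle (Polynomial.le_natDegree_of_ne_zero (by rw [hcn']; exact hdn))
  have hlead : E.leadingCoeff = d n := by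
    rw [Polynomial.leadingCoeff, hdeg, hcn']
  have hE0 : E ≠ 0 := by
    intro h
    rw [h] at hcn'
    simp at hcn'
    exact hdn hcn'.symm
  have hsplit := IsAlgClosed.splits E
  have hcard : E.roots.card = n := by
    rw [← hdeg]
    exact (Polynomial.splits_iff_card_roots.1 hsplit)
  have hprod : E = Polynomial.C (d n) *
      (E.roots.map (fun a => Polynomial.X - Polynomial.C a)).prod := by
    have := Polynomial.C_leadingCoeff_mul_prod_multiset_X_sub_C
      (p := E) (by rw [hcard, hdeg])
    rw [hlead] at this
    exact this.symm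
  set as := E.roots.toList with has
  have hlen : as.length = n := by rw [has, Multiset.length_toList, hcard]
  have hprod2 : (E.roots.map (fun a => (Polynomial.X - Polynomial.C a : Polynomial ℂ))).prod =
      (as.map (fun a => Polynomial.X - Polynomial.C a)).prod := by
    conv_lhs => rw [← Multiset.coe_toList E.roots]
    rw [Multiset.map_coe, Multiset.prod_coe]
  rw [hprod2] at hprod
  have hroot : ∀ a ∈ as, ‖a‖ ≤ 1 / s := by
    intro a ha
    rw [has, Multiset.mem_toList, Polynomial.mem_roots hE0] at ha
    by_cases ha0 : a = 0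
    · rw [ha0, norm_zero]
      positivity
    by_contra hcon
    push Not at hcon
    have h1 : ‖a⁻¹‖ < s := by
      rw [norm_inv]
      have h2 : 0 < ‖a‖ := norm_pos_iff.2 ha0
      rw [inv_lt_comm₀ h2 hs, ← one_div]
      exact hcon
    refine hd a⁻¹ h1 ?_
    have h3 : E.eval a = 0 := ha
    rw [hE, Polynomial.eval_finsetSum] at h3
    simp only [Polynomial.eval_mul, Polynomial.eval_C, Polynomial.eval_pow, Polynomial.eval_X] at h3
    rw [← Finset.sum_range_reflect] at h3
    have h4 : ∑ i ∈ range (n + 1), (n.choose i : ℂ) * d (n - i) * a⁻¹ ^ i =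
        (a⁻¹) ^ n * ∑ j ∈ range (n + 1), (n.choose (n + 1 - 1 - j) : ℂ) * d (n + 1 - 1 - j) *
          a ^ (n + 1 - 1 - j) := by
      rw [Finset.mul_sum]
      refine Finset.sum_congr rfl fun i hi => ?_
      rw [Finset.mem_range] at hi
      have e1 : n + 1 - 1 - i = n - i := by omega
      have e2 : (n.choose (n - i) : ℂ) = n.choose i := by
        rw [Nat.choose_symm (by omega)]
      have e3 : (a⁻¹) ^ n = (a⁻¹) ^ i * (a⁻¹) ^ (n - i) := by
        rw [← pow_add]
        congr 1
        omega
      rw [e1, e2, e3]
      have e4 : (a⁻¹) ^ (n - i) * a ^ (n - i) = 1 := by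
        rw [← mul_pow, inv_mul_cancel₀ ha0, one_pow]
      calc (n.choose i : ℂ) * d (n - i) * a⁻¹ ^ i
          = (n.choose i : ℂ) * d (n - i) * a⁻¹ ^ i * ((a⁻¹) ^ (n - i) * a ^ (n - i)) := by
            rw [e4, mul_one]
        _ = _ := by ring
    rw [h4, h3, mul_zero]
  set l : ℕ → ℂ := fun i => c (n - i) * w ^ i with hl
  have hR : 0 < r / ‖w‖ := by positivity
  have hact := act_ne_zero (R := r / ‖w‖) hR as l (by
    intro z hz
    rw [hlen]
    unfold Phi
    have h1 : ∑ i ∈ range (n + 1), (n.choose i : ℂ) * (-z) ^ i * l i =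
        ∑ i ∈ range (n + 1), (n.choose i : ℂ) * c (n - i) * (-z * w) ^ i := by
      refine Finset.sum_congr rfl fun i _ => ?_
      rw [hl, mul_pow]
      ring
    rw [h1]
    refine hc _ ?_
    rw [norm_mul, norm_neg]
    rwa [lt_div_iff₀ hwpos] at hz) (by
    intro a ha
    refine (hroot a ha).trans_lt ?_
    rw [div_lt_div_iff₀ hs hwpos, one_mul]
    exact hw)
  rw [act_eq, hlen] at hact
  have hfin : ∑ i ∈ range (n + 1), (n.choose i : ℂ) * (c (n - i) * d (n - i)) * w ^ i =
      d n * ∑ i ∈ range (n + 1),
        ((as.map (fun a => (Polynomial.X - Polynomial.C a : Polynomial ℂ))).prod).coeff (n - i)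
          * l i := by
    rw [Finset.mul_sum]
    refine Finset.sum_congr rfl fun i hi => ?_
    rw [Finset.mem_range] at hi
    have e1 := hcoef (n - i) (by omega)
    rw [hprod, Polynomial.coeff_C_mul, Nat.choose_symm (by omega)] at e1
    have e2 : l i = c (n - i) * w ^ i := rfl
    rw [e2]
    linear_combination (-(c (n - i) * w ^ i)) * e1
  rw [hfin]
  exact mul_ne_zero hdn hact

end Pool.Agent.Q161.HZ
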