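import Pool.Agent.Q161.HZ.Stmts

set_option autoImplicit false

/-! Distance to the non-positive integers (blueprint lemma for `MP_d36490_an`). -/

namespace Pool.Agent.Q161.HZ

open Finset

theorem taskDist : TaskDist := by
  intro a ha
  have hpos : ∀ m : ℕ, 0 < ‖a + m‖ := by
    intro m
    rw [norm_pos_iff]
    intro h
    exact ha m (eq_neg_of_add_eq_zero_left h)
  obtain ⟨N, hN⟩ := exists_nat_ge (2 * ‖a‖ + 1)
  obtain ⟨m0, -, hmin⟩ := Finset.exists_min_image (range (N + 1))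
    (fun m : ℕ => ‖a + m‖ / ((m : ℝ) + 1)) ⟨0, by simp⟩
  refine ⟨min (1 / 2) (‖a + m0‖ / ((m0 : ℝ) + 1)), ?_, ?_⟩
  · apply lt_min (by norm_num)
    exact div_pos (hpos m0) (by positivity)
  · intro m
    have hm1 : (0 : ℝ) < (m : ℝ) + 1 := by positivity
    by_cases hm : m ∈ range (N + 1)
    · have h1 := hmin m hm
      calc min (1 / 2) (‖a + m0‖ / ((m0 : ℝ) + 1)) * ((m : ℝ) + 1)
          ≤ ‖a + m‖ / ((m : ℝ) + 1) * ((m : ℝ) + 1) :=
            mul_le_mul_of_nonneg_right ((min_le_right _ _).trans h1) hm1.le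
        _ = ‖a + m‖ := by field_simp
    · have hmN : N < m := by
        rw [mem_range] at hm; omega
      have hmN' : (N : ℝ) ≤ m := by exact_mod_cast hmN.le
      have h2 : (m : ℝ) - ‖a‖ ≤ ‖a + m‖ := by
        have h3 := norm_sub_norm_le (m : ℂ) (-a)
        rw [norm_neg, sub_neg_eq_add, Complex.norm_natCast, add_comm (m : ℂ) a] at h3
        exact h3
      calc min (1 / 2) (‖a + m0‖ / ((m0 : ℝ) + 1)) * ((m : ℝ) + 1)
          ≤ (1 / 2) * ((m : ℝ) + 1) := mul_le_mul_of_nonneg_right (min_le_left _ _) hm1.le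
        _ ≤ (m : ℝ) - ‖a‖ := by linarith
        _ ≤ _ := h2

end Pool.Agent.Q161.HZ
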