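import Pool.Agent.Q161.HZ.Stmts

set_option autoImplicit false

namespace Pool.Agent.Q161.HZ

open Finset

theorem taskFact : TaskFact := by
  refine ⟨1 / 20, by norm_num, ?_⟩
  intro n hn w hw
  have h1 : ∑ i ∈ range (n + 1), (n.choose i : ℂ) * ((n - i).factorial : ℂ) * w ^ i =
      (n.factorial : ℂ) * ∑ i ∈ range (n + 1), w ^ i / (i.factorial : ℂ) := by
    rw [Finset.mul_sum]
    apply Finset.sum_congr rfl
    intro i hi
    have hi' : i ≤ n := Nat.lt_succ_iff.mp (mem_range.mp hi)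
    have h := Nat.choose_mul_factorial_mul_factorial hi'
    have h2 : (n.choose i : ℂ) * (i.factorial : ℂ) * ((n - i).factorial : ℂ) = n.factorial := by
      exact_mod_cast h
    have h3 : (i.factorial : ℂ) ≠ 0 := by exact_mod_cast i.factorial_ne_zero
    rw [← h2]
    field_simp
  change ∑ i ∈ range (n + 1), (n.choose i : ℂ) * ((n - i).factorial : ℂ) * w ^ i ≠ 0
  rw [h1]
  refine mul_ne_zero (by exact_mod_cast n.factorial_ne_zero) ?_
  intro h0
  have hn' : (1 : ℝ) ≤ n := by exact_mod_cast hn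
  have hr0 : 0 ≤ ‖w‖ := norm_nonneg w
  have hr : ‖w‖ < n / 20 := by linarith
  -- the tail
  have htail := Complex.exp_bound' (x := w) (n := n + 1) (by
    rw [div_le_iff₀ (by positivity)]
    push_cast
    linarith)
  rw [h0, sub_zero, Complex.norm_exp] at htail
  have hre : -‖w‖ ≤ w.re := (abs_le.mp (Complex.abs_re_le_norm w)).1
  have hlow : Real.exp (-(n : ℝ)) ≤ Real.exp w.re := Real.exp_le_exp.mpr (by linarith)
  have hup := Real.pow_div_factorial_le_exp (20 * ‖w‖) (by positivity) (n + 1)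
  have hup2 : Real.exp (20 * ‖w‖) ≤ Real.exp n := Real.exp_le_exp.mpr (by linarith)
  rw [mul_pow, mul_div_assoc] at hup
  have hE : Real.exp n ≤ 3 ^ n := by
    have : Real.exp (n : ℝ) = Real.exp 1 ^ n := by
      rw [← Real.exp_nat_mul, mul_one]
    rw [this]
    exact pow_le_pow_left₀ (Real.exp_pos _).le (by linarith [Real.exp_one_lt_d9]) n
  have hpos : 0 < Real.exp (n : ℝ) := Real.exp_pos _
  have h9 : Real.exp n * Real.exp n ≤ 20 ^ n := by
    calc Real.exp n * Real.exp n ≤ 3 ^ n * 3 ^ n := by gcongr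
      _ = 9 ^ n := by rw [← mul_pow]; norm_num
      _ ≤ 20 ^ n := by gcongr; norm_num
  have h20 : (0 : ℝ) < 20 ^ n := by positivity
  set A : ℝ := ‖w‖ ^ (n + 1) / ((n + 1).factorial : ℝ) with hA
  have hA1 : 20 ^ (n + 1) * A ≤ Real.exp n := hup.trans hup2
  have hneg : Real.exp (-(n : ℝ)) * Real.exp n = 1 := by
    rw [← Real.exp_add]; simp
  have hA2 : Real.exp (-(n : ℝ)) ≤ A * 2 := hlow.trans htail
  -- multiply by `20 ^ (n + 1) * exp n`
  have h3 : (20 : ℝ) ^ (n + 1) ≤ 2 * (Real.exp n * Real.exp n) := by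
    have e1 : (20 : ℝ) ^ (n + 1) * (Real.exp (-(n : ℝ)) * Real.exp n) ≤
        (20 : ℝ) ^ (n + 1) * (A * 2 * Real.exp n) := by gcongr
    rw [hneg, mul_one] at e1
    have e2 : (20 : ℝ) ^ (n + 1) * (A * 2 * Real.exp n) = (20 ^ (n + 1) * A) * (2 * Real.exp n) := by ring
    rw [e2] at e1
    have e3 : (20 ^ (n + 1) * A) * (2 * Real.exp n) ≤ Real.exp n * (2 * Real.exp n) := by gcongr
    linarith
  rw [pow_succ] at h3
  nlinarith

end Pool.Agent.Q161.HZ
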