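import Pool.Agent.Q161.HZ.Stmts

set_option autoImplicit false

namespace Pool.Agent.Q161.HZ

open Finset

namespace TaskInvAux

theorem poch_ne {b : ℂ} (hb : ∀ m : ℕ, b ≠ -m) (j : ℕ) : poch b j ≠ 0 := by
  unfold poch
  rw [prod_ne_zero_iff]
  intro i _ h
  exact hb i (eq_neg_of_add_eq_zero_left h)

theorem poch_succ (b : ℂ) (j : ℕ) : poch b (j + 1) = poch b j * (b + j) := by
  unfold poch
  rw [prod_range_succ]

noncomputable def t (b z : ℂ) (j : ℕ) : ℂ := z ^ j * (poch b j)⁻¹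

theorem t_succ {b : ℂ} (hb : ∀ m : ℕ, b ≠ -m) (z : ℂ) (j : ℕ) :
    (b + j) * t b z (j + 1) = z * t b z j := by
  have h1 : b + j ≠ 0 := fun h => hb j (eq_neg_of_add_eq_zero_left h)
  have h2 := poch_ne hb j
  unfold t
  rw [poch_succ, pow_succ]
  field_simp

noncomputable def G (b z : ℂ) (M n : ℕ) : ℂ := ∑ j ∈ range M, (n.choose j : ℂ) * t b z j

noncomputable def H (b z : ℂ) (M n : ℕ) : ℂ := ∑ j ∈ range M, (n.choose j : ℂ) * t b z (j + 1)

theorem G_succ (b z : ℂ) {M n : ℕ} (h : n < M) :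
    G b z (M + 1) (n + 1) = G b z (M + 1) n + H b z (M + 1) n := by
  have e1 : G b z (M + 1) (n + 1) =
      ∑ j ∈ range M, ((n.choose j : ℂ) + (n.choose (j + 1) : ℂ)) * t b z (j + 1) + t b z 0 := by
    unfold G
    rw [sum_range_succ']
    congr 1
    · refine sum_congr rfl fun j _ => ?_
      rw [Nat.choose_succ_succ]
      push_cast
      ring
    · simp
  have e2 : G b z (M + 1) n = ∑ j ∈ range M, (n.choose (j + 1) : ℂ) * t b z (j + 1) + t b z 0 := by
    unfold G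
    rw [sum_range_succ']
    simp
  have e3 : H b z (M + 1) n = ∑ j ∈ range M, (n.choose j : ℂ) * t b z (j + 1) := by
    unfold H
    rw [sum_range_succ, Nat.choose_eq_zero_of_lt h]
    simp
  rw [e1, e2, e3]
  simp only [add_mul, sum_add_distrib]
  ring

theorem choose_rel (n j : ℕ) : ((n + 1 : ℕ) - j : ℂ) * ((n + 1).choose j : ℂ) =
    (n + 1 : ℕ) * (n.choose j : ℂ) := by
  rcases Nat.lt_or_ge (n + 1) j with h | h
  · rw [Nat.choose_eq_zero_of_lt h, Nat.choose_eq_zero_of_lt (by omega : n < j)]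
    simp
  · have h1 := Nat.choose_mul_succ_eq n j
    rw [← Nat.cast_sub h]
    have h2 : ((n.choose j * (n + 1) : ℕ) : ℂ) = (((n + 1).choose j * (n + 1 - j) : ℕ) : ℂ) := by
      rw [h1]
    push_cast at h2 ⊢
    linear_combination -h2

theorem rel0 {b : ℂ} (hb : ∀ m : ℕ, b ≠ -m) (z : ℂ) (M : ℕ) :
    z * G b z M 0 = b * H b z M 0 := by
  unfold G H
  rw [mul_sum, mul_sum]
  refine sum_congr rfl fun j _ => ?_
  rcases Nat.eq_zero_or_pos j with rfl | hj
  · have := t_succ hb z 0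
    simp only [Nat.cast_zero, add_zero] at this
    simp only [Nat.choose_self, Nat.cast_one, one_mul]
    exact this.symm
  · rw [Nat.choose_eq_zero_of_lt hj]
    simp

theorem rel {b : ℂ} (hb : ∀ m : ℕ, b ≠ -m) (z : ℂ) (M n : ℕ) :
    z * G b z M (n + 1) = (b + (n + 1 : ℕ)) * H b z M (n + 1) - (n + 1 : ℕ) * H b z M n := by
  unfold G H
  rw [mul_sum, mul_sum, mul_sum, ← sum_sub_distrib]
  refine sum_congr rfl fun j _ => ?_
  have h1 := t_succ hb z j
  have h2 := choose_rel n j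
  linear_combination (-((n + 1).choose j : ℂ)) * h1 - t b z (j + 1) * h2

end TaskInvAux

open TaskInvAux in
theorem taskInv : TaskInv := by
  intro b hb
  have hB : 0 ≤ ‖b‖ := norm_nonneg b
  refine ⟨1 / (4 + 2 * ‖b‖), by positivity, fun n hn w hw => ?_⟩
  rcases eq_or_ne w 0 with rfl | hw0
  · rw [sum_eq_single 0]
    · simp only [Nat.choose_zero_right, Nat.cast_one, one_mul, pow_zero, mul_one, Nat.sub_zero]
      exact inv_ne_zero (poch_ne hb n)
    · intro i _ hi
      rw [zero_pow hi, mul_zero]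
    · intro h
      exact absurd (mem_range.2 (by omega)) h
  set z : ℂ := w⁻¹ with hz
  have hzn : 4 * (n : ℝ) + 2 * ‖b‖ ≤ ‖z‖ := by
    have hn1 : (1 : ℝ) ≤ n := by exact_mod_cast hn
    have hwp : 0 < ‖w‖ := norm_pos_iff.2 hw0
    rw [hz, norm_inv, le_inv_comm₀ (by positivity) hwp]
    refine hw.le.trans ?_
    rw [div_div, one_div]
    refine inv_anti₀ (by positivity) ?_
    nlinarith
  have hsum : ∑ i ∈ range (n + 1), (n.choose i : ℂ) * (poch b (n - i))⁻¹ * w ^ i =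
      w ^ n * G b z (n + 1 + 1) n := by
    have e1 : G b z (n + 1 + 1) n = ∑ j ∈ range (n + 1), (n.choose j : ℂ) * t b z j := by
      unfold G
      rw [sum_range_succ _ (n + 1), Nat.choose_succ_self]
      simp
    rw [e1, mul_sum, ← sum_range_reflect]
    refine sum_congr rfl fun j hj => ?_
    have hj' : j ≤ n := by
      have := mem_range.1 hj
      omega
    have e2 : n + 1 - 1 - j = n - j := by omega
    rw [e2, Nat.sub_sub_self hj', Nat.choose_symm hj']
    unfold t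
    have e3 : w ^ n = w ^ (n - j) * w ^ j := by rw [← pow_add]; congr 1; omega
    rw [e3, hz, inv_pow]
    have h4 : w ^ j ≠ 0 := pow_ne_zero _ hw0
    field_simp
  show ∑ i ∈ range (n + 1), (n.choose i : ℂ) * (poch b (n - i))⁻¹ * w ^ i ≠ 0
  rw [hsum]
  refine mul_ne_zero (pow_ne_zero _ hw0) ?_
  have key : ∀ k : ℕ, k ≤ n → 1 ≤ ‖G b z (n + 1 + 1) k‖ ∧
      ‖G b z (n + 1 + 1) k‖ ≤ ‖G b z (n + 1 + 1) (k + 1)‖ := by
    intro k
    induction k with
    | zero =>
      intro _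
      have h0 : G b z (n + 1 + 1) 0 = 1 := by
        unfold G
        rw [sum_eq_single 0]
        · simp [t, poch]
        · intro j _ hj
          rw [Nat.choose_eq_zero_of_lt (Nat.pos_of_ne_zero hj)]
          simp
        · intro h; exact absurd (mem_range.2 (by omega)) h
      have h1 := G_succ b z (M := n + 1) (n := 0) (by omega)
      have h2 := rel0 hb z (n + 1 + 1)
      have hb0 : b ≠ 0 := fun h => hb 0 (by rw [h]; simp)
      have hbp : 0 < ‖b‖ := norm_pos_iff.2 hb0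
      have h3 : b * G b z (n + 1 + 1) (0 + 1) = (b + z) * G b z (n + 1 + 1) 0 := by
        rw [h1]; linear_combination -h2
      have h4 := congrArg norm h3
      rw [norm_mul, norm_mul] at h4
      have h5 : ‖z‖ ≤ ‖b + z‖ + ‖b‖ := by
        have := norm_sub_le (b + z) b
        rwa [add_sub_cancel_left] at this
      refine ⟨by rw [h0, norm_one], ?_⟩
      have h6 : ‖b‖ * ‖G b z (n + 1 + 1) 0‖ ≤ ‖b‖ * ‖G b z (n + 1 + 1) (0 + 1)‖ := by
        rw [h4]
        refine mul_le_mul_of_nonneg_right ?_ (norm_nonneg _)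
        have : (0 : ℝ) ≤ n := Nat.cast_nonneg n
        linarith
      exact le_of_mul_le_mul_left h6 hbp
    | succ k ih =>
      intro hk
      obtain ⟨i1, i2⟩ := ih (by omega)
      refine ⟨i1.trans i2, ?_⟩
      have h1 := G_succ b z (M := n + 1) (n := k) (by omega)
      have h2 := G_succ b z (M := n + 1) (n := k + 1) (by omega)
      have h3 := rel hb z (n + 1 + 1) k
      have h4 : (b + (k + 1 : ℕ)) * G b z (n + 1 + 1) (k + 1 + 1) =
          (2 * (k + 1 : ℕ) + b + z) * G b z (n + 1 + 1) (k + 1) -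
            (k + 1 : ℕ) * G b z (n + 1 + 1) k := by
        rw [h2]
        have h5 : H b z (n + 1 + 1) k = G b z (n + 1 + 1) (k + 1) - G b z (n + 1 + 1) k := by
          rw [h1]; ring
        rw [h5] at h3
        linear_combination -h3
      have hkp : (0 : ℝ) ≤ ((k + 1 : ℕ) : ℝ) := Nat.cast_nonneg _
      have hkn : ((k + 1 : ℕ) : ℝ) ≤ n := by exact_mod_cast hk
      have h5 : z * G b z (n + 1 + 1) (k + 1) =
          (b + (k + 1 : ℕ)) * G b z (n + 1 + 1) (k + 1 + 1) -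
          (2 * (k + 1 : ℕ) + b) * G b z (n + 1 + 1) (k + 1) +
            (k + 1 : ℕ) * G b z (n + 1 + 1) k := by
        rw [h4]; ring
      have h6 : ‖z‖ * ‖G b z (n + 1 + 1) (k + 1)‖ ≤
          ‖b + (k + 1 : ℕ)‖ * ‖G b z (n + 1 + 1) (k + 1 + 1)‖ +
          (2 * ((k + 1 : ℕ) : ℝ) + ‖b‖) * ‖G b z (n + 1 + 1) (k + 1)‖ +
            ((k + 1 : ℕ) : ℝ) * ‖G b z (n + 1 + 1) k‖ := by
        rw [← norm_mul, h5]
        refine (norm_add_le _ _).trans (add_le_add ((norm_sub_le _ _).trans (add_le_add ?_ ?_)) ?_)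
        · rw [norm_mul]
        · rw [norm_mul]
          refine mul_le_mul_of_nonneg_right ((norm_add_le _ _).trans ?_) (norm_nonneg _)
          rw [norm_mul, Complex.norm_natCast]
          simp
        · rw [norm_mul, Complex.norm_natCast]
      have hbk : b + (k + 1 : ℕ) ≠ 0 := fun h => hb (k + 1) (eq_neg_of_add_eq_zero_left h)
      have hbkp : 0 < ‖b + (k + 1 : ℕ)‖ := norm_pos_iff.2 hbk
      have h7 : ‖b + (k + 1 : ℕ)‖ ≤ ‖b‖ + ((k + 1 : ℕ) : ℝ) := by
        refine (norm_add_le _ _).trans ?_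
        rw [Complex.norm_natCast]
      have hG1 : 0 ≤ ‖G b z (n + 1 + 1) (k + 1)‖ := norm_nonneg _
      have h8 : ‖b + (k + 1 : ℕ)‖ * ‖G b z (n + 1 + 1) (k + 1)‖ ≤
          ‖b + (k + 1 : ℕ)‖ * ‖G b z (n + 1 + 1) (k + 1 + 1)‖ := by
        have e1 : ((k + 1 : ℕ) : ℝ) * ‖G b z (n + 1 + 1) k‖ ≤
            ((k + 1 : ℕ) : ℝ) * ‖G b z (n + 1 + 1) (k + 1)‖ :=
          mul_le_mul_of_nonneg_left i2 hkp
        have e2 : ‖b + (k + 1 : ℕ)‖ * ‖G b z (n + 1 + 1) (k + 1)‖ ≤
            (‖b‖ + ((k + 1 : ℕ) : ℝ)) * ‖G b z (n + 1 + 1) (k + 1)‖ :=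
          mul_le_mul_of_nonneg_right h7 hG1
        have e3 : (4 * ((k + 1 : ℕ) : ℝ) + 2 * ‖b‖) * ‖G b z (n + 1 + 1) (k + 1)‖ ≤
            ‖z‖ * ‖G b z (n + 1 + 1) (k + 1)‖ :=
          mul_le_mul_of_nonneg_right (by linarith) hG1
        linarith
      exact le_of_mul_le_mul_left h8 hbkp
  have := (key n le_rfl).1
  intro h
  rw [h, norm_zero] at this
  linarith

end Pool.Agent.Q161.HZ
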