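import Pool.Agent.Q161.HZ.Stmts

set_option autoImplicit false

/-!
MP_d36490_an: TaskKummer (Kummer's transformation, by Chu-Vandermonde and the Cauchy product).
-/

namespace Pool.Agent.Q161.HZ

open Finset

namespace KummerH

theorem poch_zero (a : ℂ) : poch a 0 = 1 := by simp [poch]

theorem poch_succ (a : ℂ) (j : ℕ) : poch a (j + 1) = poch a j * (a + j) := by
  rw [poch, prod_range_succ]
  rfl

theorem poch_succ' (a : ℂ) (j : ℕ) : poch a (j + 1) = a * poch (a + 1) j := by
  rw [poch, prod_range_succ', poch, mul_comm]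
  congr 1
  · simp
  · refine prod_congr rfl fun i _ => ?_
    push_cast
    ring

theorem poch_ne {a : ℂ} (ha : ∀ m : ℕ, a + m ≠ 0) (j : ℕ) : poch a j ≠ 0 := by
  rw [poch, prod_ne_zero_iff]
  exact fun i _ => ha i

/-- Chu-Vandermonde -/
theorem chu (m : ℕ) : ∀ B C : ℂ, (∀ j : ℕ, C + j ≠ 0) →
    ∑ j ∈ range (m + 1), (m.choose j : ℂ) * (-1) ^ j * (poch B j / poch C j) =
      poch (C - B) m / poch C m := by
  induction m with
  | zero => intro B C hC; simp [poch_zero]
  | succ m ih =>
    intro B C hC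
    have hC1 : ∀ j : ℕ, (C + 1) + j ≠ 0 := by
      intro j
      have := hC (j + 1)
      push_cast at this
      intro h
      apply this
      rw [← h]
      ring
    have hC0 : C ≠ 0 := by simpa using hC 0
    have h1 : ∑ j ∈ range (m + 1 + 1), ((m + 1).choose j : ℂ) * (-1) ^ j * (poch B j / poch C j) =
        (∑ j ∈ range (m + 1), (m.choose j : ℂ) * (-1) ^ j * (poch B j / poch C j)) -
        B / C * ∑ j ∈ range (m + 1), (m.choose j : ℂ) * (-1) ^ j *
          (poch (B + 1) j / poch (C + 1) j) := by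
      have h2 : ∑ j ∈ range (m + 1), (m.choose j : ℂ) * (-1) ^ j * (poch B j / poch C j) =
          ∑ j ∈ range (m + 1 + 1), (m.choose j : ℂ) * (-1) ^ j * (poch B j / poch C j) := by
        rw [sum_range_succ _ (m + 1)]
        simp
      rw [h2, sum_range_succ' _ (m + 1), sum_range_succ' _ (m + 1), mul_sum]
      simp only [Nat.choose_zero_right]
      rw [add_sub_right_comm, ← sum_sub_distrib]
      congr 1
      refine sum_congr rfl fun j _ => ?_
      rw [Nat.choose_succ_succ, poch_succ' B j, poch_succ' C j]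
      have hp := poch_ne hC1 j
      push_cast
      field_simp
      ring
    rw [h1, ih B C hC, ih (B + 1) (C + 1) hC1]
    have hp1 := poch_ne hC m
    have hp2 := poch_ne hC1 m
    have e1 : C + 1 - (B + 1) = C - B := by ring
    have e2 : poch C m * (C + m) = C * poch (C + 1) m := by rw [← poch_succ, poch_succ']
    have hm : C + m ≠ 0 := hC m
    rw [e1, poch_succ (C - B) m, poch_succ C m]
    have e3 : poch (C + 1) m = poch C m * (C + m) / C := by
      rw [e2]; field_simp
    rw [e3]
    field_simp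
    ring

theorem poch_refl (a : ℂ) (n : ℕ) (m : ℕ) (hm : m ≤ n) :
    poch (1 - a - n) m * poch a (n - m) = (-1) ^ m * poch a n := by
  induction m with
  | zero => simp [poch_zero]
  | succ m ih =>
    have h := ih (by omega)
    obtain ⟨k, rfl⟩ : ∃ k, n = m + 1 + k := ⟨n - (m + 1), by omega⟩
    have e1 : m + 1 + k - m = k + 1 := by omega
    have e2 : m + 1 + k - (m + 1) = k := by omega
    rw [e1, poch_succ a k] at h
    rw [e2, poch_succ, pow_succ]
    have e3 : (1 - a - ((m + 1 + k : ℕ) : ℂ) + m) = -(a + k) := by push_cast; ring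
    rw [e3]
    linear_combination (-1 : ℂ) * h

theorem poch_neg (n : ℕ) (m : ℕ) (hm : m ≤ n) :
    poch (-(n : ℂ)) m * ((n - m).factorial : ℂ) = (-1) ^ m * (n.factorial : ℂ) := by
  induction m with
  | zero => simp [poch_zero]
  | succ m ih =>
    have h := ih (by omega)
    obtain ⟨k, rfl⟩ : ∃ k, n = m + 1 + k := ⟨n - (m + 1), by omega⟩
    have e1 : m + 1 + k - m = k + 1 := by omega
    have e2 : m + 1 + k - (m + 1) = k := by omega
    rw [e1, Nat.factorial_succ] at h
    rw [e2, poch_succ, pow_succ]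
    have e3 : (-((m + 1 + k : ℕ) : ℂ) + m) = -(k + 1) := by push_cast; ring
    rw [e3]
    push_cast at h ⊢
    linear_combination (-1 : ℂ) * h

theorem poch_neg_zero (n m : ℕ) (hm : n < m) : poch (-(n : ℂ)) m = 0 := by
  rw [poch, prod_eq_zero_iff]
  exact ⟨n, mem_range.2 hm, by ring⟩

end KummerH

open KummerH in
theorem taskKummer : TaskKummer := by
  intro a ha n w hs
  have hC : ∀ j : ℕ, (1 - a - n) + (j : ℂ) ≠ 0 := by
    intro j h
    apply ha (1 - n + j)
    push_cast
    linear_combination (-1 : ℂ) * h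
  have hexp : Complex.exp w = ∑' k : ℕ, w ^ k / (k.factorial : ℂ) := by
    rw [Complex.exp_eq_exp_ℂ, NormedSpace.exp_eq_tsum_div]
  have hes : Summable (fun k : ℕ => ‖w ^ k / (k.factorial : ℂ)‖) :=
    NormedSpace.norm_expSeries_div_summable w
  have hterm : ∀ m : ℕ, ∑ k ∈ range (m + 1),
      (poch (1 - a) k / poch (1 - a - n) k * ((-w) ^ k / k.factorial)) *
        (w ^ (m - k) / ((m - k).factorial : ℂ)) =
      w ^ m / m.factorial * (poch (-(n : ℂ)) m / poch (1 - a - n) m) := by
    intro m
    have h := chu m (1 - a) (1 - a - n) hC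
    have e1 : 1 - a - (n : ℂ) - (1 - a) = -(n : ℂ) := by ring
    rw [e1] at h
    rw [← h, mul_sum]
    refine sum_congr rfl fun k hk => ?_
    have hk' : k ≤ m := by simpa [Nat.lt_succ_iff] using hk
    have hch : (m.choose k : ℂ) * k.factorial * (m - k).factorial = m.factorial := by
      exact_mod_cast Nat.choose_mul_factorial_mul_factorial hk'
    have hk0 : (k.factorial : ℂ) ≠ 0 := by exact_mod_cast k.factorial_ne_zero
    have hmk0 : ((m - k).factorial : ℂ) ≠ 0 := by exact_mod_cast (m - k).factorial_ne_zero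
    have hm0 : (m.factorial : ℂ) ≠ 0 := by exact_mod_cast m.factorial_ne_zero
    have hw : w ^ m = w ^ k * w ^ (m - k) := by rw [← pow_add]; congr 1; omega
    have hp := poch_ne hC k
    rw [neg_pow w k, hw, ← hch]
    rw [← hch] at hm0
    have hc0 : (m.choose k : ℂ) ≠ 0 := by
      intro h0; rw [h0] at hm0; simp at hm0
    field_simp
  have hprod : Complex.exp w *
      ∑' k : ℕ, poch (1 - a) k / poch (1 - a - n) k * ((-w) ^ k / k.factorial) =
      ∑ m ∈ range (n + 1), w ^ m / m.factorial * (poch (-(n : ℂ)) m / poch (1 - a - n) m) := by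
    rw [hexp, mul_comm, tsum_mul_tsum_eq_tsum_sum_range_of_summable_norm hs hes]
    simp_rw [hterm]
    refine tsum_eq_sum fun m hm => ?_
    have : n < m := by simpa using hm
    rw [poch_neg_zero n m this]
    simp
  rw [hprod, mul_sum]
  refine sum_congr rfl fun m hm => ?_
  have hm' : m ≤ n := by simpa [Nat.lt_succ_iff] using hm
  have h1 := poch_refl a n m hm'
  have h2 := poch_neg n m hm'
  have hch : (n.choose m : ℂ) * m.factorial * (n - m).factorial = n.factorial := by
    exact_mod_cast Nat.choose_mul_factorial_mul_factorial hm'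
  have hk0 : (m.factorial : ℂ) ≠ 0 := by exact_mod_cast m.factorial_ne_zero
  have hmk0 : ((n - m).factorial : ℂ) ≠ 0 := by exact_mod_cast (n - m).factorial_ne_zero
  have hp := poch_ne hC m
  have hs1 : ((-1 : ℂ) ^ m) * (-1) ^ m = 1 := by
    rw [← mul_pow]; norm_num
  have h3 : poch a n = (-1) ^ m * (poch (1 - a - n) m * poch a (n - m)) := by
    rw [h1, ← mul_assoc, hs1, one_mul]
  have h4 : poch (-(n : ℂ)) m = (-1) ^ m * ((n.choose m : ℂ) * m.factorial) := by
    apply mul_right_cancel₀ hmk0
    rw [h2, ← hch]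
    ring
  rw [h3, h4]
  field_simp
  linear_combination (-(n.choose m : ℂ) * poch a (n - m) * w ^ m) * hs1

end Pool.Agent.Q161.HZ
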