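import Pool.Agent.Q161.HZ.Stmts

set_option autoImplicit false

namespace Pool.Agent.Q161.HZ

open Finset

namespace LinAux

theorem binom (n : ℕ) (w : ℂ) : ∑ i ∈ range (n + 1), (n.choose i : ℂ) * w ^ i = (1 + w) ^ n := by
  rw [add_comm 1 w, add_pow]
  refine sum_congr rfl fun i _ => ?_
  rw [one_pow]
  ring

theorem id (α : ℂ) (m : ℕ) (w : ℂ) :
    ∑ i ∈ range (m + 1 + 1), ((m + 1).choose i : ℂ) * (α + ((m + 1 - i : ℕ) : ℂ)) * w ^ i =
      (1 + w) ^ m * (α + ((m + 1 : ℕ) : ℂ) + α * w) := by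
  have e1 : ∀ i ∈ range (m + 1 + 1),
      ((m + 1).choose i : ℂ) * (α + ((m + 1 - i : ℕ) : ℂ)) * w ^ i =
        α * (((m + 1).choose i : ℂ) * w ^ i) + ((m + 1 : ℕ) : ℂ) * ((m.choose i : ℂ) * w ^ i) := by
    intro i _
    have h0 := Nat.choose_mul_succ_eq m i
    have h : (m.choose i : ℂ) * ((m + 1 : ℕ) : ℂ) =
        ((m + 1).choose i : ℂ) * ((m + 1 - i : ℕ) : ℂ) := by
      rw [← Nat.cast_mul, ← Nat.cast_mul, h0]
    linear_combination (-w ^ i) * h
  rw [sum_congr rfl e1, sum_add_distrib, ← mul_sum, ← mul_sum, binom]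
  have b2 : ∑ i ∈ range (m + 1 + 1), (m.choose i : ℂ) * w ^ i = (1 + w) ^ m := by
    rw [sum_range_succ, binom, Nat.choose_succ_self]
    simp
  rw [b2]
  push_cast
  ring

end LinAux

theorem taskLin : TaskLin := by
  intro α n ρ hρ hn h1 h2 w hw
  obtain ⟨m, rfl⟩ : ∃ m, n = m + 1 := ⟨n - 1, by omega⟩
  have e := LinAux.id α m w
  simp only []
  rw [e]
  refine mul_ne_zero (pow_ne_zero _ ?_) ?_
  · intro h
    have hw1 : w = -1 := by linear_combination h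
    rw [hw1, norm_neg, norm_one] at hw
    linarith
  · intro h
    have h3 : α + ((m + 1 : ℕ) : ℂ) = -(α * w) := by linear_combination h
    have h4 : ‖α + ((m + 1 : ℕ) : ℂ)‖ = ‖α‖ * ‖w‖ := by rw [h3, norm_neg, norm_mul]
    by_cases hα : α = 0
    · apply h2
      rw [h3, hα]
      simp
    · have h5 : 0 < ‖α‖ := norm_pos_iff.2 hα
      have h6 : ‖α‖ * ‖w‖ < ‖α‖ * ρ := mul_lt_mul_of_pos_left hw h5
      linarith [h1, h4, h6, mul_comm ρ ‖α‖]

end Pool.Agent.Q161.HZ
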