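import Pool.Agent.Q161.HZ.Stmts

/-! # Proof of `TaskLow` -/

set_option autoImplicit false

namespace Pool.Agent.Q161.HZ

open Finset

private def wlow (n i : ℕ) : ℕ := if i < n then n - i else i - n + 1

private theorem desc_low : ∀ (n k : ℕ), k ≤ n →
    (n : ℝ) ^ k ≤ (Real.exp 1) ^ k * (n.descFactorial k : ℝ) := by
  intro n
  induction n with
  | zero =>
    intro k hk
    have : k = 0 := by omega
    subst this
    simp
  | succ n ih =>
    intro k hk
    cases k with
    | zero => simp
    | succ k =>
      have hk' : k ≤ n := by omega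
      have h1 := ih k hk'
      rw [Nat.succ_descFactorial_succ]
      push_cast
      have h2 : ((n : ℝ) + 1) ^ k ≤ Real.exp 1 * (n : ℝ) ^ k := by
        rcases Nat.eq_zero_or_pos n with h0 | h0
        · subst h0
          have : k = 0 := by omega
          subst this
          have := Real.add_one_le_exp (1 : ℝ)
          simp
        · have hn : (0 : ℝ) < n := by exact_mod_cast h0
          have h3 : (n : ℝ) + 1 = n * (1 + 1 / n) := by field_simp
          rw [h3, mul_pow]
          have h4 : (1 + 1 / (n : ℝ)) ≤ Real.exp (1 / n) := by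
            have := Real.add_one_le_exp (1 / (n : ℝ))
            linarith
          have h5 : (1 + 1 / (n : ℝ)) ^ k ≤ Real.exp 1 := by
            calc _ ≤ (Real.exp (1 / n)) ^ k := pow_le_pow_left₀ (by positivity) h4 k
              _ = Real.exp (k * (1 / n)) := by rw [← Real.exp_nat_mul]
              _ ≤ Real.exp 1 := Real.exp_le_exp.2 (by
                rw [mul_one_div, div_le_one hn]
                exact_mod_cast hk')
          have h6 : (0 : ℝ) < (n : ℝ) ^ k := pow_pos hn k
          nlinarith
      calc ((n : ℝ) + 1) ^ (k + 1) = ((n : ℝ) + 1) * ((n : ℝ) + 1) ^ k := by ring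
        _ ≤ ((n : ℝ) + 1) * (Real.exp 1 * (n : ℝ) ^ k) := by gcongr
        _ ≤ ((n : ℝ) + 1) * (Real.exp 1 * ((Real.exp 1) ^ k * (n.descFactorial k : ℝ))) := by gcongr
        _ = _ := by ring

private theorem wlow_prod (n k : ℕ) :
    (n : ℝ) ^ k ≤ (Real.exp 2) ^ k * ((∏ i ∈ range k, wlow n i : ℕ) : ℝ) := by
  have he : Real.exp 1 ≤ Real.exp 2 := Real.exp_le_exp.2 (by norm_num)
  have he0 := Real.exp_pos 1
  rcases le_or_gt k n with hk | hk
  · have h1 : ∏ i ∈ range k, wlow n i = n.descFactorial k := by
      rw [Nat.descFactorial_eq_prod_range]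
      apply Finset.prod_congr rfl
      intro i hi
      rw [mem_range] at hi
      unfold wlow
      rw [if_pos (by omega)]
    rw [h1]
    refine (desc_low n k hk).trans ?_
    gcongr
  · obtain ⟨j, rfl⟩ := Nat.exists_eq_add_of_lt hk
    rw [show n + j + 1 = n + (j + 1) by ring]
    set l := j + 1 with hl
    have h1 : ∏ i ∈ range (n + l), wlow n i = n.factorial * l.factorial := by
      rw [Finset.prod_range_add]
      congr 1
      · rw [← Nat.descFactorial_self, Nat.descFactorial_eq_prod_range]
        apply Finset.prod_congr rfl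
        intro i hi
        rw [mem_range] at hi
        unfold wlow
        rw [if_pos (by omega)]
      · rw [← Finset.prod_range_add_one_eq_factorial]
        apply Finset.prod_congr rfl
        intro i hi
        unfold wlow
        rw [if_neg (by omega)]
        omega
    rw [h1]
    have hn0 : (0 : ℝ) ≤ n := Nat.cast_nonneg n
    have h2 : (n : ℝ) ^ n ≤ Real.exp n * n.factorial := by
      have := Real.pow_div_factorial_le_exp (n : ℝ) hn0 n
      rwa [div_le_iff₀ (by positivity)] at this
    have h3 : (n : ℝ) ^ l ≤ Real.exp n * l.factorial := by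
      have := Real.pow_div_factorial_le_exp (n : ℝ) hn0 l
      rwa [div_le_iff₀ (by positivity)] at this
    have h4 : Real.exp n * Real.exp n ≤ (Real.exp 2) ^ (n + l) := by
      rw [← Real.exp_add, ← Real.exp_nat_mul]
      apply Real.exp_le_exp.2
      push_cast
      have : (0 : ℝ) ≤ l := Nat.cast_nonneg l
      linarith
    push_cast
    calc (n : ℝ) ^ (n + l) = (n : ℝ) ^ n * (n : ℝ) ^ l := pow_add _ _ _
      _ ≤ (Real.exp n * n.factorial) * (Real.exp n * l.factorial) := by gcongr
      _ = (Real.exp n * Real.exp n) * (n.factorial * l.factorial) := by ring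
      _ ≤ (Real.exp 2) ^ (n + l) * (n.factorial * l.factorial) := by gcongr

theorem taskLow (hD : TaskDist) : TaskLow := by
  intro a ha
  obtain ⟨c₁, hc₁, h₁⟩ := hD a (fun m h => ha (-(m : ℤ)) (by rw [h]; push_cast; rfl))
  obtain ⟨c₂, hc₂, h₂⟩ := hD (1 - a) (fun m h => ha (1 + (m : ℤ)) (by
    push_cast
    linear_combination -h))
  set c₀ : ℝ := min c₁ c₂ with hc₀
  have hc₀0 : 0 < c₀ := lt_min hc₁ hc₂
  have he := Real.exp_pos 2
  refine ⟨c₀ / Real.exp 2, by positivity, fun n k hn => ?_⟩
  have hfac : ∀ i : ℕ, c₀ * (wlow n i : ℝ) ≤ ‖1 - a - n + (i : ℂ)‖ := by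
    intro i
    unfold wlow
    split_ifs with hi
    · have h3 := h₁ (n - 1 - i)
      have h4 : ‖1 - a - n + (i : ℂ)‖ = ‖a + ((n - 1 - i : ℕ) : ℂ)‖ := by
        rw [← norm_neg]
        congr 1
        have : ((n - 1 - i : ℕ) : ℂ) = n - 1 - i := by
          rw [Nat.cast_sub (by omega), Nat.cast_sub (by omega)]
          push_cast
          ring
        rw [this]
        ring
      rw [h4]
      have h5 : ((n - i : ℕ) : ℝ) = ((n - 1 - i : ℕ) : ℝ) + 1 := by
        have : n - i = (n - 1 - i) + 1 := by omega
        rw [this]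
        push_cast
        ring
      rw [h5]
      refine le_trans ?_ h3
      exact mul_le_mul_of_nonneg_right (min_le_left _ _) (by positivity)
    · have h3 := h₂ (i - n)
      have h4 : ‖1 - a - n + (i : ℂ)‖ = ‖1 - a + ((i - n : ℕ) : ℂ)‖ := by
        congr 1
        rw [Nat.cast_sub (by omega)]
        ring
      rw [h4]
      push_cast
      refine le_trans ?_ h3
      exact mul_le_mul_of_nonneg_right (min_le_right _ _) (by positivity)
  have hprod : c₀ ^ k * ((∏ i ∈ range k, wlow n i : ℕ) : ℝ) ≤ ‖poch (1 - a - n) k‖ := by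
    unfold poch
    rw [norm_prod]
    push_cast
    have h5 : c₀ ^ k = ∏ _i ∈ range k, c₀ := by
      rw [Finset.prod_const, card_range]
    rw [h5, ← Finset.prod_mul_distrib]
    apply Finset.prod_le_prod
    · intro i _
      positivity
    · intro i _
      exact hfac i
  have hw := wlow_prod n k
  calc (c₀ / Real.exp 2 * n) ^ k = c₀ ^ k * ((n : ℝ) ^ k / (Real.exp 2) ^ k) := by
        rw [mul_pow, div_pow]
        ring
    _ ≤ c₀ ^ k * ((∏ i ∈ range k, wlow n i : ℕ) : ℝ) := by
        apply mul_le_mul_of_nonneg_left _ (by positivity)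
        rw [div_le_iff₀ (by positivity)]
        linarith
    _ ≤ _ := hprod

end Pool.Agent.Q161.HZ
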