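import Pool.Agent.Q161.HZ.Stmts

set_option autoImplicit false

namespace Pool.Agent.Q161.HZ

open Finset

theorem taskNonInt (hLow : TaskLow) (hKum : TaskKummer) : TaskNonInt := by
  intro a ha
  obtain ⟨c0, hc0, hlow⟩ := hLow a ha
  have hA : 0 < 1 + ‖a‖ := by positivity
  refine ⟨c0 / (4 * (1 + ‖a‖)), by positivity, fun n hn w hw => ?_⟩
  have hn0 : (0 : ℝ) < n := by exact_mod_cast hn
  set q : ℝ := (1 + ‖a‖) * ‖w‖ / (c0 * n) with hq
  have hq0 : 0 ≤ q := by positivity
  have hq4 : q < 1 / 4 := by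
    rw [hq, div_lt_iff₀ (by positivity)]
    have h1 := mul_lt_mul_of_pos_left hw hA
    have e : (1 + ‖a‖) * (c0 / (4 * (1 + ‖a‖)) * n) = 1 / 4 * (c0 * n) := by field_simp
    linarith
  have hpoch : ∀ k : ℕ, ‖poch (1 - a) k‖ ≤ (1 + ‖a‖) ^ k * k.factorial := by
    intro k
    induction k with
    | zero => simp [poch]
    | succ k ih =>
      have h0 : poch (1 - a) (k + 1) = poch (1 - a) k * (1 - a + k) := by
        unfold poch
        rw [prod_range_succ]
      rw [h0, norm_mul, Nat.factorial_succ, pow_succ]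
      have h1 : ‖1 - a + k‖ ≤ (1 + ‖a‖) * (k + 1) := by
        calc ‖1 - a + k‖ ≤ ‖1 - a‖ + ‖(k : ℂ)‖ := norm_add_le _ _
          _ ≤ (‖(1 : ℂ)‖ + ‖a‖) + ‖(k : ℂ)‖ := by gcongr; exact norm_sub_le _ _
          _ = 1 + ‖a‖ + k := by rw [norm_one, Complex.norm_natCast]
          _ ≤ _ := by nlinarith [norm_nonneg a, (Nat.cast_nonneg k : (0 : ℝ) ≤ k),
            mul_nonneg (norm_nonneg a) (Nat.cast_nonneg k : (0 : ℝ) ≤ k)]
      calc ‖poch (1 - a) k‖ * ‖1 - a + k‖
          ≤ ((1 + ‖a‖) ^ k * k.factorial) * ((1 + ‖a‖) * (k + 1)) := by gcongr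
        _ = _ := by push_cast; ring
  have hterm : ∀ k : ℕ,
      ‖poch (1 - a) k / poch (1 - a - n) k * ((-w) ^ k / k.factorial)‖ ≤ q ^ k := by
    intro k
    rw [norm_mul, norm_div, norm_div, norm_pow, norm_neg, Complex.norm_natCast]
    have hl := hlow n k hn
    have hpos : 0 < (c0 * n) ^ k := by positivity
    have hk : (0 : ℝ) < k.factorial := by exact_mod_cast Nat.factorial_pos k
    calc ‖poch (1 - a) k‖ / ‖poch (1 - a - n) k‖ * (‖w‖ ^ k / k.factorial)
        ≤ ((1 + ‖a‖) ^ k * k.factorial) / (c0 * n) ^ k * (‖w‖ ^ k / k.factorial) := by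
          gcongr
          exact hpoch k
      _ = q ^ k := by
          rw [hq, div_pow, mul_pow]
          field_simp
          rw [mul_pow]
  have hgeo : Summable fun k : ℕ => q ^ k := summable_geometric_of_lt_one hq0 (by linarith)
  have hsumn : Summable (fun k : ℕ =>
      ‖poch (1 - a) k / poch (1 - a - n) k * ((-w) ^ k / k.factorial)‖) :=
    Summable.of_nonneg_of_le (fun _ => norm_nonneg _) hterm hgeo
  rw [hKum a ha n w hsumn]
  have hsum := hsumn.of_norm
  have htail : ‖∑' k : ℕ, poch (1 - a) (k + 1) / poch (1 - a - n) (k + 1) *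
      ((-w) ^ (k + 1) / (k + 1).factorial)‖ ≤ q * (1 - q)⁻¹ := by
    have hs : HasSum (fun k : ℕ => q ^ (k + 1)) (q * (1 - q)⁻¹) := by
      have h5 := (hasSum_geometric_of_lt_one hq0 (by linarith : q < 1)).mul_left q
      have h6 : (fun k : ℕ => q ^ (k + 1)) = fun k : ℕ => q * q ^ k :=
        funext fun k => pow_succ' q k
      rw [h6]
      exact h5
    exact tsum_of_norm_bounded hs fun k => hterm (k + 1)
  have hlt : q * (1 - q)⁻¹ < 1 := by
    rw [← div_eq_mul_inv, div_lt_one (by linarith)]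
    linarith
  refine mul_ne_zero ?_ (mul_ne_zero (Complex.exp_ne_zero _) ?_)
  · unfold poch
    refine prod_ne_zero_iff.2 fun i _ => ?_
    intro h
    apply ha (-i)
    push_cast
    linear_combination h
  · rw [hsum.tsum_eq_zero_add]
    intro h
    have h0 : poch (1 - a) 0 / poch (1 - a - n) 0 * ((-w) ^ 0 / (Nat.factorial 0 : ℂ)) = 1 := by
      simp [poch]
    rw [h0] at h
    have h1 : ∑' k : ℕ, poch (1 - a) (k + 1) / poch (1 - a - n) (k + 1) *
      ((-w) ^ (k + 1) / (k + 1).factorial) = -1 := by linear_combination h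
    rw [h1, norm_neg, norm_one] at htail
    linarith

end Pool.Agent.Q161.HZ
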