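import Pool.Agent.Q161.HZ.Stmts

set_option autoImplicit false

namespace Pool.Agent.Q161.HZ

open Finset

namespace TPoch

lemma poch_one (j : ℕ) : poch 1 j = (j.factorial : ℂ) := by
  induction j with
  | zero => simp [poch]
  | succ j ih =>
    unfold poch at ih ⊢
    rw [prod_range_succ, ih, Nat.factorial_succ]
    push_cast
    ring

lemma poch_step (a : ℂ) (j : ℕ) : poch a j * (a + j) = a * poch (a + 1) j := by
  induction j with
  | zero => simp [poch]
  | succ j ih =>
    have e1 : poch a (j + 1) = poch a j * (a + j) := by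
      unfold poch
      rw [prod_range_succ]
    have e2 : poch (a + 1) (j + 1) = poch (a + 1) j * (a + 1 + j) := by
      unfold poch
      rw [prod_range_succ]
    rw [e1, e2, ih]
    push_cast
    ring

lemma good_of_const {a : ℂ} (d : ℕ → ℂ) {n : ℕ} {ρ : ℝ}
    (h : Good (fun j => a * d j) n ρ) : Good d n ρ := by
  intro w hw h0
  apply h w hw
  have : ∑ i ∈ range (n + 1), (n.choose i : ℂ) * (a * d (n - i)) * w ^ i =
      a * ∑ i ∈ range (n + 1), (n.choose i : ℂ) * d (n - i) * w ^ i := by
    rw [mul_sum]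
    exact sum_congr rfl fun i _ => by ring
  rw [this, h0, mul_zero]

lemma nat_case (hC : TaskComp) (hL : TaskLin) (hF : TaskFact) (m : ℕ) :
    ∃ c : ℝ, 0 < c ∧ ∀ n : ℕ, 1 ≤ n → Good (poch ((m : ℂ) + 1)) n (c * n) := by
  induction m with
  | zero =>
    obtain ⟨c, hc, h⟩ := hF
    refine ⟨c, hc, fun n hn => ?_⟩
    have h1 := h n hn
    have e : (fun j : ℕ => (j.factorial : ℂ)) = poch (((0 : ℕ) : ℂ) + 1) := by
      funext j
      rw [Nat.cast_zero, zero_add, poch_one]
    rw [← e]
    exact h1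
  | succ m ih =>
    obtain ⟨c, hc, h⟩ := ih
    refine ⟨c, hc, fun n hn => ?_⟩
    have hn0 : (0 : ℝ) < n := by exact_mod_cast hn
    have h1 : Good (fun j => ((m : ℂ) + 1) + j) n 1 := by
      have e1 : ‖((m : ℂ) + 1)‖ = (m : ℝ) + 1 := by
        rw [show ((m : ℂ) + 1) = (((m + 1 : ℕ)) : ℂ) by push_cast; ring, Complex.norm_natCast]
        push_cast
        ring
      have e2 : ‖((m : ℂ) + 1) + n‖ = (m : ℝ) + 1 + n := by
        rw [show ((m : ℂ) + 1) + n = (((m + 1 + n : ℕ)) : ℂ) by push_cast; ring, Complex.norm_natCast]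
        push_cast
        ring
      refine hL ((m : ℂ) + 1) n 1 le_rfl hn ?_ ?_
      · rw [e1, e2]
        linarith
      · intro h0
        rw [h0, norm_zero] at e2
        have : (0 : ℝ) ≤ m := Nat.cast_nonneg m
        linarith
    have h2 := hC (poch ((m : ℂ) + 1)) (fun j => ((m : ℂ) + 1) + j) n (c * n) 1 (mul_pos hc hn0)
      one_pos (h n hn) h1
    rw [mul_one] at h2
    have e3 : (fun j : ℕ => poch ((m : ℂ) + 1) j * (((m : ℂ) + 1) + j)) =
        fun j => ((m : ℂ) + 1) * poch (((m + 1 : ℕ) : ℂ) + 1) j := by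
      funext j
      rw [poch_step]
      push_cast
      rfl
    rw [e3] at h2
    exact good_of_const _ h2

end TPoch

/-- from TaskComp, TaskLin, TaskDist, TaskFact, TaskNonInt -/
theorem taskPoch (hC : TaskComp) (hL : TaskLin) (_hD : TaskDist) (hF : TaskFact) (hN : TaskNonInt) :
    TaskPoch := by
  intro a ha
  by_cases h : ∀ m : ℤ, a ≠ m
  · exact hN a h
  · push Not at h
    obtain ⟨m, hm⟩ := h
    rcases le_or_gt m 0 with h0 | h0
    · exfalso
      obtain ⟨k, hk⟩ := Int.eq_ofNat_of_zero_le (neg_nonneg.mpr h0)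
      apply ha k
      rw [hm]
      have : m = -(k : ℤ) := by omega
      rw [this]
      push_cast
      ring
    · obtain ⟨k, hk⟩ := Int.eq_ofNat_of_zero_le (show (0 : ℤ) ≤ m - 1 by omega)
      have e : a = (k : ℂ) + 1 := by
        rw [hm]
        have : m = (k : ℤ) + 1 := by omega
        rw [this]
        push_cast
        ring
      rw [e]
      exact TPoch.nat_case hC hL hF k

end Pool.Agent.Q161.HZ
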