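import Pool.Agent.Q161.HZ.Stmts

set_option autoImplicit false

/-!
# The multipliers `(n + λ)_j`
-/

namespace Pool.Agent.Q161.HZ

open Finset

theorem Good.mono_shift {c : ℕ → ℂ} {n : ℕ} {ρ ρ' : ℝ} (h : Good c n ρ) (hρ : ρ' ≤ ρ) :
    Good c n ρ' := fun w hw => h w (lt_of_lt_of_le hw hρ)

theorem Good.const_shift {c : ℕ → ℂ} {n : ℕ} {ρ : ℝ} (h : Good c n ρ) {C : ℂ} (hC : C ≠ 0) :
    Good (fun j => C * c j) n ρ := by
  intro w hw
  have e : ∑ i ∈ range (n + 1), (n.choose i : ℂ) * (C * c (n - i)) * w ^ i =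
      C * ∑ i ∈ range (n + 1), (n.choose i : ℂ) * c (n - i) * w ^ i := by
    rw [mul_sum]
    exact sum_congr rfl fun i _ => by ring
  rw [e]
  exact mul_ne_zero hC (h w hw)

theorem poch_add_shift (a : ℂ) (i j : ℕ) : poch a (i + j) = poch a i * poch (a + i) j := by
  unfold poch
  rw [prod_range_add]
  congr 1
  refine prod_congr rfl fun k _ => ?_
  push_cast
  ring

theorem poch_ne_zero_shift {a : ℂ} (ha : 0 < a.re) (j : ℕ) : poch a j ≠ 0 := by
  unfold poch
  rw [prod_ne_zero_iff]
  intro i _ h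
  have h1 := congrArg Complex.re h
  simp only [Complex.add_re, Complex.natCast_re, Complex.zero_re] at h1
  have h2 : (0 : ℝ) ≤ i := Nat.cast_nonneg i
  linarith

theorem prod_shift (hComp : TaskComp) (hLin : TaskLin) {a : ℂ} (ha : 0 < a.re) {n : ℕ}
    (hn : 1 ≤ n) {ρ : ℝ} (hρ : 0 < ρ) (h : Good (poch a) n ρ) (r : ℕ) :
    Good (fun j => poch a j * ∏ i ∈ range r, (a + i + j)) n ρ := by
  induction r with
  | zero => simpa using h
  | succ r ih =>
    have h1 : Good (fun j => (a + r) + j) n 1 := by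
      have hre : (a + r : ℂ).re = a.re + r := by simp
      have hr : (0 : ℝ) ≤ r := Nat.cast_nonneg r
      have hn0 : (0 : ℝ) ≤ n := Nat.cast_nonneg n
      refine hLin (a + r) n 1 le_rfl hn ?_ ?_
      · rw [one_mul]
        have e1 : ‖(a + r : ℂ)‖ ^ 2 ≤ ‖(a + r + n : ℂ)‖ ^ 2 := by
          rw [← Complex.normSq_eq_norm_sq, ← Complex.normSq_eq_norm_sq, Complex.normSq_apply,
            Complex.normSq_apply]
          have e2 : (a + r + n : ℂ).re = (a + r : ℂ).re + n := by simp
          have e3 : (a + r + n : ℂ).im = (a + r : ℂ).im := by simp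
          rw [e2, e3]
          nlinarith [hre]
        exact (pow_le_pow_iff_left₀ (norm_nonneg _) (norm_nonneg _) two_ne_zero).1 e1
      · intro h0
        have h2 := congrArg Complex.re h0
        simp only [Complex.add_re, Complex.natCast_re, Complex.zero_re] at h2
        linarith
    have h2 := hComp _ _ n ρ 1 hρ one_pos ih h1
    rw [mul_one] at h2
    have e : (fun j : ℕ => poch a j * ∏ i ∈ range (r + 1), (a + i + j)) =
        fun j : ℕ => (poch a j * ∏ i ∈ range r, (a + i + j)) * (a + r + j) := by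
      funext j
      rw [prod_range_succ, mul_assoc]
    rw [e]
    exact h2

theorem taskShift (hComp : TaskComp) (hLin : TaskLin) (hPoch : TaskPoch) (hSmall : TaskSmall) :
    TaskShift := by
  intro lam
  obtain ⟨K, hK⟩ := exists_nat_gt (-lam.re)
  have ha : 0 < (lam + K : ℂ).re := by
    simp only [Complex.add_re, Complex.natCast_re]
    linarith
  obtain ⟨c0, hc0, h0⟩ := hPoch (lam + K) (by
    intro m hm
    have h1 := congrArg Complex.re hm
    simp only [Complex.neg_re, Complex.natCast_re] at h1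
    have h2 : (0 : ℝ) ≤ m := Nat.cast_nonneg m
    rw [h1] at ha
    linarith)
  have hlarge : ∀ n : ℕ, 1 ≤ n → K ≤ n → Good (poch (n + lam)) n (c0 * n) := by
    intro n hn hKn
    obtain ⟨r, rfl⟩ := Nat.exists_eq_add_of_le hKn
    have hn0 : (0 : ℝ) < ((K + r : ℕ) : ℝ) := by exact_mod_cast hn
    have h1 := prod_shift hComp hLin ha hn (mul_pos hc0 hn0) (h0 _ hn) r
    have hne := poch_ne_zero_shift ha r
    have h2 := h1.const_shift (inv_ne_zero hne)
    have e : (fun j : ℕ => (poch (lam + K) r)⁻¹ *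
        (poch (lam + K) j * ∏ i ∈ range r, (lam + K + i + j))) =
        poch (((K + r : ℕ) : ℂ) + lam) := by
      funext j
      have e1 := poch_add_shift (lam + K) j r
      have e2 := poch_add_shift (lam + K) r j
      rw [add_comm j r] at e1
      have e3 : poch (lam + K + j) r = ∏ i ∈ range r, (lam + K + i + j) := by
        unfold poch
        exact prod_congr rfl fun i _ => by ring
      have e4 : (lam + K + r : ℂ) = ((K + r : ℕ) : ℂ) + lam := by
        push_cast
        ring
      rw [← e3, ← e1, e2, e4, inv_mul_cancel_left₀ hne]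
    rw [e] at h2
    exact h2
  have hsmall : ∀ L : ℕ, ∃ c : ℝ, 0 < c ∧ ∀ n : ℕ, 1 ≤ n → n < L → poch (n + lam) n ≠ 0 →
      Good (poch (n + lam)) n (c * n) := by
    intro L
    induction L with
    | zero => exact ⟨1, one_pos, fun n _ h => absurd h (Nat.not_lt_zero n)⟩
    | succ L ih =>
      obtain ⟨c, hc, h⟩ := ih
      by_cases hL : 1 ≤ L ∧ poch (L + lam) L ≠ 0
      · obtain ⟨ρ, hρ, hg⟩ := hSmall (poch (L + lam)) L hL.2
        have hL0 : (0 : ℝ) < L := by exact_mod_cast hL.1
        refine ⟨min c (ρ / L), lt_min hc (div_pos hρ hL0), fun n hn hnL hne => ?_⟩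
        have hn0 : (0 : ℝ) ≤ n := Nat.cast_nonneg n
        rcases Nat.lt_succ_iff_lt_or_eq.1 hnL with h1 | h1
        · exact (h n hn h1 hne).mono_shift (mul_le_mul_of_nonneg_right (min_le_left _ _) hn0)
        · subst h1
          refine hg.mono_shift ?_
          calc min c (ρ / n) * n ≤ ρ / n * n :=
                mul_le_mul_of_nonneg_right (min_le_right _ _) hn0
            _ = ρ := div_mul_cancel₀ _ hL0.ne'
      · refine ⟨c, hc, fun n hn hnL hne => ?_⟩
        rcases Nat.lt_succ_iff_lt_or_eq.1 hnL with h1 | h1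
        · exact h n hn h1 hne
        · subst h1
          exact absurd ⟨hn, hne⟩ hL
  obtain ⟨c1, hc1, h1⟩ := hsmall K
  refine ⟨min c0 c1, lt_min hc0 hc1, fun n hn hne => ?_⟩
  have hn0 : (0 : ℝ) ≤ n := Nat.cast_nonneg n
  rcases lt_or_ge n K with h2 | h2
  · exact (h1 n hn h2 hne).mono_shift (mul_le_mul_of_nonneg_right (min_le_right _ _) hn0)
  · exact (hlarge n hn h2).mono_shift (mul_le_mul_of_nonneg_right (min_le_left _ _) hn0)

end Pool.Agent.Q161.HZ
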