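import Pool.Agent.Q161.HZ.Stmts

set_option autoImplicit false

/-! # No zeros near `0` -/

namespace Pool.Agent.Q161.HZ

open Finset

theorem taskSmall : TaskSmall := by
  intro c n hc
  have hcont : Continuous fun w : ℂ =>
      ∑ i ∈ range (n + 1), (n.choose i : ℂ) * c (n - i) * w ^ i := by
    fun_prop
  have h0 : (∑ i ∈ range (n + 1), (n.choose i : ℂ) * c (n - i) * (0 : ℂ) ^ i) ≠ 0 := by
    rw [Finset.sum_eq_single 0]
    · simpa using hc
    · intro i _ hi
      rw [zero_pow hi, mul_zero]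
    · intro h
      exact absurd (Finset.mem_range.2 (Nat.succ_pos n)) h
  have h1 := hcont.continuousAt.eventually_ne h0
  obtain ⟨ρ, hρ, h⟩ := Metric.eventually_nhds_iff.1 h1
  exact ⟨ρ, hρ, fun w hw => h (by simpa using hw)⟩

end Pool.Agent.Q161.HZ
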